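import Mathlib
import Pool.Agent.N753.DR.Stm2
import Pool.Agent.N147.DR.Typ

/-! Project CV: the types at a good prime, for linear forms with any coefficients. -/

set_option autoImplicit false

namespace Pool.Agent.N394.CV

open NumberField IsDedekindDomain Module Polynomial Pool.Agent.N753.DR Pool.Agent.N147.DR

section loc

variable {K L : Type} [Field K] [NumberField K] [Field L] [NumberField L] [Algebra K L]

theorem evB_single {m : ℕ} (β : Fin m → 𝓞 L) (j : Fin m) (c : 𝓞 K) :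
    evB K β (Pi.single j c) = algebraMap (𝓞 K) (𝓞 L) c * β j := by
  show ∑ i : Fin m, algebraMap (𝓞 K) (𝓞 L) ((Pi.single j c : Fin m → 𝓞 K) i) * β i = _
  rw [Finset.sum_eq_single j]
  · rw [Pi.single_eq_same]
  · intro i _ hi
    rw [Pi.single_eq_of_ne hi, map_zero, zero_mul]
  · intro h; exact absurd (Finset.mem_univ _) h

/-- the lattices have large index -/
theorem typ_indexB {v : HeightOneSpectrum (𝓞 K)} {m : ℕ} {β : Fin m → 𝓞 L} {i0 i1 : Fin m}
    (hβ : ∀ w : HeightOneSpectrum (𝓞 L), w.asIdeal.LiesOver v.asIdeal → β i0 ∉ w.asIdeal)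
    (hunr : ∀ w : HeightOneSpectrum (𝓞 L), w.asIdeal.LiesOver v.asIdeal → ∀ (e : ℕ) (c : 𝓞 K),
      algebraMap (𝓞 K) (𝓞 L) c ∈ w.asIdeal ^ e → c ∈ v.asIdeal ^ e)
    (hind : ∀ w : HeightOneSpectrum (𝓞 L), w.asIdeal.LiesOver v.asIdeal → ∀ c0 c1 : 𝓞 K,
      algebraMap (𝓞 K) (𝓞 L) c0 * β i0 + algebraMap (𝓞 K) (𝓞 L) c1 * β i1 ∈ w.asIdeal →
      (Ideal.absNorm v.asIdeal < Ideal.absNorm w.asIdeal ∨
        ∃ w' : HeightOneSpectrum (𝓞 L), w'.asIdeal.LiesOver v.asIdeal ∧ w' ≠ w ∧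
          algebraMap (𝓞 K) (𝓞 L) c0 * β i0 + algebraMap (𝓞 K) (𝓞 L) c1 * β i1 ∈ w'.asIdeal) →
      c0 ∈ v.asIdeal ∧ c1 ∈ v.asIdeal)
    {b : Ideal (𝓞 L)} (hb : IsTyp v b) (s : ℕ) (ι : Fin s → Fin m)
    (h0ι : i0 ∈ Set.range ι) (h1ι : i1 ∈ Set.range ι ∨ finrank K L = 1) :
    ((Submodule.toAddSubgroup b).comap (evB K (fun j => β (ι j)))).index ≠ 0 ∧
        Ideal.absNorm v.asIdeal ^ 2 ≤
          ((Submodule.toAddSubgroup b).comap (evB K (fun j => β (ι j)))).index := by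
  classical
  obtain ⟨j0, hj0⟩ := h0ι
  have hbn := (typ_norm hb).1
  have hidx : (Submodule.toAddSubgroup b).index ≠ 0 := by
    rw [index_ideal, Ne, Ideal.absNorm_eq_zero_iff]; exact hbn
  have h0 : ((Submodule.toAddSubgroup b).comap (evB K (fun j => β (ι j)))).index ≠ 0 := by
    rw [AddSubgroup.index_comap]
    intro h
    have h1 := AddSubgroup.relIndex_dvd_index_of_normal (Submodule.toAddSubgroup b)
      (evB K (fun j => β (ι j))).range
    rw [h] at h1
    exact hidx (Nat.eq_zero_of_zero_dvd h1)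
  refine ⟨h0, ?_⟩
  -- the second case
  have hcase2 : ∀ w : HeightOneSpectrum (𝓞 L), w.asIdeal.LiesOver v.asIdeal → b ≤ w.asIdeal →
      (Ideal.absNorm v.asIdeal < Ideal.absNorm w.asIdeal ∨
        ∃ w' : HeightOneSpectrum (𝓞 L), w'.asIdeal.LiesOver v.asIdeal ∧ w' ≠ w ∧ b ≤ w'.asIdeal) →
      Ideal.absNorm v.asIdeal ^ 2 ≤
        ((Submodule.toAddSubgroup b).comap (evB K (fun j => β (ι j)))).index := by
    intro w hw hbw hcond
    obtain ⟨j1, hj1⟩ : i1 ∈ Set.range ι := by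
      rcases h1ι with hs | hs
      · exact hs
      · exfalso
        have hmax : v.asIdeal.IsMaximal := v.isMaximal
        have := nzsd (K := K) (L := L)
        rcases hcond with h | ⟨w', hw', hne, _⟩
        · have h1 := Ideal.inertiaDeg_le_finrank (𝓞 L) K L w.asIdeal (p := v.asIdeal) v.ne_bot
          rw [hs] at h1
          rw [norm_pow hw] at h
          have h2 := Nat.pow_le_pow_right (by have := two_le_norm v; omega :
            0 < Ideal.absNorm v.asIdeal) h1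
          rw [pow_one] at h2
          omega
        · have hWcard : (IsDedekindDomain.primesOverFinset v.asIdeal (𝓞 L)).card ≤ finrank K L :=
            Ideal.card_primesOverFinset_le_finrank (𝓞 L) K L v.ne_bot
          rw [hs] at hWcard
          have h1 := Finset.card_le_one.1 hWcard w'.asIdeal
            ((IsDedekindDomain.mem_primesOverFinset_iff v.ne_bot _).2 ⟨w'.isPrime, hw'⟩) w.asIdeal
            ((IsDedekindDomain.mem_primesOverFinset_iff v.ne_bot _).2 ⟨w.isPrime, hw⟩)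
          apply hne
          ext1
          exact h1
    let g : 𝓞 K × 𝓞 K →+ (Fin s → 𝓞 K) :=
      (AddMonoidHom.single (fun _ : Fin s => 𝓞 K) j0).coprod
        (AddMonoidHom.single (fun _ : Fin s => 𝓞 K) j1)
    have hg : ∀ p : 𝓞 K × 𝓞 K, g p = (Pi.single j0 p.1 : Fin s → 𝓞 K) +
        Pi.single j1 p.2 := fun p => rfl
    have h1 := index_lower g ((Submodule.toAddSubgroup b).comap (evB K (fun j => β (ι j)))) h0
      ((Submodule.toAddSubgroup v.asIdeal).prod (Submodule.toAddSubgroup v.asIdeal)) (by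
      rintro ⟨c0, c1⟩ hc
      have hc' : evB K (fun j => β (ι j)) (g (c0, c1)) ∈ b := hc
      rw [hg, map_add, evB_single, evB_single] at hc'
      simp only [hj0, hj1] at hc'
      have h3 := hind w hw c0 c1 (hbw hc') (by
        rcases hcond with h | ⟨w', hw', hne, hbw'⟩
        · exact Or.inl h
        · exact Or.inr ⟨w', hw', hne, hbw' hc'⟩)
      exact AddSubgroup.mem_prod.2 h3)
    rw [AddSubgroup.index_prod, index_ideal, ← sq] at h1
    exact h1
  obtain ⟨w, hw, h | ⟨w', hw', hne, h⟩ | ⟨h, hlt⟩⟩ := hb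
  · let g : 𝓞 K →+ (Fin s → 𝓞 K) := AddMonoidHom.single (fun _ : Fin s => 𝓞 K) j0
    have h1 := index_lower g ((Submodule.toAddSubgroup b).comap (evB K (fun j => β (ι j)))) h0
      (Submodule.toAddSubgroup (v.asIdeal ^ 2)) (by
      intro c hc
      have hc' : evB K (fun j => β (ι j)) (Pi.single j0 c) ∈ b := hc
      rw [evB_single, h] at hc'
      simp only [hj0] at hc'
      have hp := w.isPrime
      rw [mul_comm] at hc'
      rcases Ideal.IsPrime.mul_mem_pow w.asIdeal hc' with h3 | h3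
      · exact absurd h3 (hβ w hw)
      · exact hunr w hw 2 _ h3)
    rw [index_ideal, map_pow] at h1
    exact h1
  · refine hcase2 w hw (by rw [h]; exact Ideal.mul_le_left) (Or.inr ⟨w', hw', hne, ?_⟩)
    rw [h]; exact Ideal.mul_le_right
  · exact hcase2 w hw (by rw [h]) (Or.inl hlt)

end loc

/-- a multiple of the quotient which is an algebraic integer -/
theorem exists_theta (K L : Type) [Field K] [NumberField K] [Field L] [NumberField L]
    [Algebra K L] (b0 b1 : 𝓞 L) (h0 : b0 ≠ 0)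
    (hgen : IntermediateField.adjoin K {(b1 : L) / b0} = ⊤) :
    ∃ (d : ℕ) (y θ : 𝓞 L), d ≠ 0 ∧ (d : 𝓞 L) = b0 * y ∧ b0 * θ = d * b1 ∧
      IntermediateField.adjoin K {(θ : L)} = ⊤ := by
  set d : ℕ := Ideal.absNorm (Ideal.span {b0}) with hd
  have hd0 : d ≠ 0 := by
    rw [hd, Ne, Ideal.absNorm_eq_zero_iff, Ideal.span_singleton_eq_bot]
    exact h0
  obtain ⟨y, hy⟩ : b0 ∣ (d : 𝓞 L) := by
    rw [← Ideal.mem_span_singleton]
    exact Ideal.absNorm_mem _
  refine ⟨d, y, b1 * y, hd0, hy, ?_, ?_⟩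
  · rw [hy]; ring
  · rw [eq_top_iff, ← hgen]
    rw [IntermediateField.adjoin_simple_le_iff]
    have hb0 : (b0 : L) ≠ 0 := by
      intro h
      exact h0 (RingOfIntegers.coe_injective (h.trans (map_zero (algebraMap (𝓞 L) L)).symm))
    have hdL : (d : L) ≠ 0 := by exact_mod_cast hd0
    have hyL : (d : L) = (b0 : L) * (y : L) := by
      have := congrArg (algebraMap (𝓞 L) L) hy
      rw [map_mul, map_natCast] at this
      exact this
    have e1 : (b1 : L) / b0 = ((b1 * y : 𝓞 L) : L) * (d : L)⁻¹ := by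
      have e2 : ((b1 * y : 𝓞 L) : L) = (b1 : L) * (y : L) := by simp
      rw [e2]
      have hy0 : (y : L) ≠ 0 := by
        intro h
        rw [h, mul_zero] at hyL
        exact hdL hyL
      rw [hyL]
      field_simp
    rw [e1]
    refine mul_mem (IntermediateField.mem_adjoin_simple_self K _) (inv_mem ?_)
    exact natCast_mem _ d

theorem typB : StmTypB := by
  intro K L _ _ _ _ _ m β i0 i1 h0 hgen
  obtain ⟨d, y, θ, hd0, hdy, hθd, hθ⟩ := exists_theta K L (β i0) (β i1) h0 hgen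
  obtain ⟨Δ, hΔ0, hΔ⟩ := exists_delta K L θ hθ
  obtain ⟨s1, hs1, hr1⟩ := ram_LK K L
  obtain ⟨s2, hs2, hr2⟩ := ram_KQ K
  have hs1' := below_fin (A := 𝓞 K) s1 hs1
  have ha0 : (Ideal.span {(d : 𝓞 K)}) ≠ ⊥ := by
    rw [Ne, Ideal.span_singleton_eq_bot]
    exact_mod_cast hd0
  have hD0 : (Ideal.span {Δ}) ≠ ⊥ := by
    rw [Ne, Ideal.span_singleton_eq_bot]
    exact hΔ0
  have hs3 := Ideal.finite_factors ha0
  have hs4 := Ideal.finite_factors hD0
  have hfin := ((hs1'.union hs2).union hs3).union hs4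
  refine ⟨hfin.toFinset, ?_⟩
  intro v hv
  rw [Set.Finite.mem_toFinset, Set.mem_union, Set.mem_union, Set.mem_union, not_or, not_or,
    not_or] at hv
  obtain ⟨⟨⟨hv1, hv2⟩, hv3⟩, hv4⟩ := hv
  have hav : (d : 𝓞 K) ∉ v.asIdeal := by
    intro h
    apply hv3
    show v.asIdeal ∣ Ideal.span {(d : 𝓞 K)}
    rw [Ideal.dvd_span_singleton]
    exact h
  have hΔv : Δ ∉ v.asIdeal := by
    intro h
    apply hv4
    show v.asIdeal ∣ Ideal.span {Δ}
    rw [Ideal.dvd_span_singleton]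
    exact h
  have hβ : ∀ w : HeightOneSpectrum (𝓞 L), w.asIdeal.LiesOver v.asIdeal →
      β i0 ∉ w.asIdeal := by
    intro w hw h
    apply hav
    rw [← under_mem hw, map_natCast, hdy]
    exact w.asIdeal.mul_mem_right _ h
  have hunr : ∀ w : HeightOneSpectrum (𝓞 L), w.asIdeal.LiesOver v.asIdeal → ∀ (e : ℕ) (c : 𝓞 K),
      algebraMap (𝓞 K) (𝓞 L) c ∈ w.asIdeal ^ e → c ∈ v.asIdeal ^ e := by
    intro w hw e c hc
    refine unram v w (hr1 w ?_ v hw) e c hc
    intro hw1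
    exact hv1 ⟨w, hw1, hw⟩
  have hmul : ∀ u : HeightOneSpectrum (𝓞 L), u.asIdeal.LiesOver v.asIdeal → ∀ c0 c1 : 𝓞 K,
      algebraMap (𝓞 K) (𝓞 L) c0 * β i0 + algebraMap (𝓞 K) (𝓞 L) c1 * β i1 ∈ u.asIdeal →
      algebraMap (𝓞 K) (𝓞 L) (d * c0) + algebraMap (𝓞 K) (𝓞 L) c1 * θ ∈ u.asIdeal := by
    intro u hu c0 c1 h
    have e1 : β i0 * (algebraMap (𝓞 K) (𝓞 L) (d * c0) + algebraMap (𝓞 K) (𝓞 L) c1 * θ) ∈
        u.asIdeal := by
      have e2 : β i0 * (algebraMap (𝓞 K) (𝓞 L) (d * c0) + algebraMap (𝓞 K) (𝓞 L) c1 * θ) =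
          (d : 𝓞 L) * (algebraMap (𝓞 K) (𝓞 L) c0 * β i0 +
            algebraMap (𝓞 K) (𝓞 L) c1 * β i1) := by
        rw [map_mul, map_natCast]
        linear_combination (algebraMap (𝓞 K) (𝓞 L) c1) * hθd
      rw [e2]
      exact u.asIdeal.mul_mem_left _ h
    rcases u.isPrime.mem_or_mem e1 with h3 | h3
    · exact absurd h3 (hβ u hu)
    · exact h3
  have hind : ∀ w : HeightOneSpectrum (𝓞 L), w.asIdeal.LiesOver v.asIdeal → ∀ c0 c1 : 𝓞 K,
      algebraMap (𝓞 K) (𝓞 L) c0 * β i0 + algebraMap (𝓞 K) (𝓞 L) c1 * β i1 ∈ w.asIdeal →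
      (Ideal.absNorm v.asIdeal < Ideal.absNorm w.asIdeal ∨
        ∃ w' : HeightOneSpectrum (𝓞 L), w'.asIdeal.LiesOver v.asIdeal ∧ w' ≠ w ∧
          algebraMap (𝓞 K) (𝓞 L) c0 * β i0 + algebraMap (𝓞 K) (𝓞 L) c1 * β i1 ∈ w'.asIdeal) →
      c0 ∈ v.asIdeal ∧ c1 ∈ v.asIdeal := by
    intro w hw c0 c1 h h2
    have h3 := indep hw hΔv hΔ (d * c0) c1 (hmul w hw c0 c1 h) (by
      rcases h2 with h2 | ⟨w', hw', hne, h2⟩
      · exact Or.inl h2
      · exact Or.inr ⟨w', hw', hne, hmul w' hw' c0 c1 h2⟩)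
    refine ⟨?_, h3.2⟩
    rcases v.isPrime.mem_or_mem h3.1 with h4 | h4
    · exact absurd h4 hav
    · exact h4
  refine ⟨hβ, hunr, fun p hp hpv e m hm => unr_Q (hr2 v hv2) p hp hpv e m hm, hind, ?_, ?_,
    (typ_fin v).1, (typ_fin v).2⟩
  · intro b hb s ι _ h0ι h1ι
    exact typ_indexB hβ hunr hind hb s ι h0ι h1ι
  · intro b hb
    exact typ_norm hb

theorem t : StmTypB := typB

end Pool.Agent.N394.CV
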